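import Mathlib

/-!
# Sign patterns of weighted partition sums with factorial parts: part (ii) fails

For `m = 3`, `k = 2` the inequality `(-1)^n S_{U_3, 2}(n) ≥ 0` fails for infinitely many `n`
(for all `n = 12 t + 2` with `t ≥ 3`).
-/

set_option autoImplicit false

namespace Pool.Agent.Results.MP_e74e95_nt.PartTwoFails

open Finset

/-- `c A i n` is the number of partitions of `n` with exactly `i` parts, all of them in `A`. -/
def c (A : Finset ℕ) (i n : ℕ) : ℕ :=
  (univ.filter (fun p : n.Partition => (∀ x ∈ p.parts, x ∈ A) ∧ p.parts.card = i)).card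

/-- `S A k n = ∑_{i=0}^n (-1)^i i^k c_A(i, n)` (with `0^0 = 1`). -/
def S (A : Finset ℕ) (k n : ℕ) : ℤ :=
  ∑ i ∈ range (n + 1), (-1) ^ i * (i : ℤ) ^ k * (c A i n : ℤ)

/-- `U m = {1!, 2!, ..., m!}`. -/
def U (m : ℕ) : Finset ℕ := (Icc 1 m).image Nat.factorial

theorem U_three : U 3 = {1, 2, 6} := by decide

theorem card_le {n : ℕ} (p : n.Partition) : p.parts.card ≤ n := by
  have h : ∀ x ∈ p.parts, 1 ≤ x := fun x hx => p.parts_pos hx
  have h2 := Multiset.card_nsmul_le_sum h
  rw [p.parts_sum] at h2
  simpa using h2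

theorem S_eq_sum (A : Finset ℕ) (k n : ℕ) : S A k n =
    ∑ p ∈ univ.filter (fun p : n.Partition => ∀ x ∈ p.parts, x ∈ A),
      (-1) ^ p.parts.card * (p.parts.card : ℤ) ^ k := by
  classical
  unfold S c
  rw [← Finset.sum_fiberwise_of_maps_to (s := univ.filter
    (fun p : n.Partition => ∀ x ∈ p.parts, x ∈ A)) (t := range (n + 1))
    (g := fun p => p.parts.card)]
  · apply sum_congr rfl
    intro i _
    rw [Finset.filter_filter]
    rw [Finset.sum_congr rfl (g := fun _ => (-1) ^ i * (i : ℤ) ^ k)]
    · rw [sum_const, nsmul_eq_mul, mul_comm]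
    · intro p hp
      rw [mem_filter] at hp
      rw [hp.2.2]
  · intro p _
    rw [mem_range]
    have := card_le p
    omega

/-- the partition with `b` parts `2`, `e` parts `6` and the other parts `1` -/
def mkP (n b e : ℕ) (h : 2 * b + 6 * e ≤ n) : n.Partition where
  parts := Multiset.replicate (n - 2 * b - 6 * e) 1 + Multiset.replicate b 2 +
    Multiset.replicate e 6
  parts_pos := by
    intro i hi
    simp only [Multiset.mem_add, Multiset.mem_replicate] at hi
    omega
  parts_sum := by
    simp only [Multiset.sum_add, Multiset.sum_replicate, smul_eq_mul]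
    omega

theorem S_three (k n : ℕ) : S (U 3) k n =
    ∑ x ∈ ((range (n + 1)) ×ˢ (range (n + 1))).filter (fun x : ℕ × ℕ => 2 * x.1 + 6 * x.2 ≤ n),
      (-1) ^ (n - x.1 - 5 * x.2) * (((n - x.1 - 5 * x.2 : ℕ)) : ℤ) ^ k := by
  classical
  rw [S_eq_sum, U_three]
  symm
  apply Finset.sum_bij (fun (x : ℕ × ℕ) hx => mkP n x.1 x.2 (by
    rw [mem_filter] at hx; exact hx.2))
  · rintro ⟨b, e⟩ hx
    rw [mem_filter]
    refine ⟨mem_univ _, ?_⟩
    intro x hx2
    simp only [mkP, Multiset.mem_add, Multiset.mem_replicate] at hx2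
    simp only [mem_insert, mem_singleton]
    omega
  · rintro ⟨b, e⟩ hx ⟨b', e'⟩ hx' h
    have h1 := congrArg (fun p : n.Partition => p.parts.count 2) h
    have h2 := congrArg (fun p : n.Partition => p.parts.count 6) h
    simp only [mkP, Multiset.count_add, Multiset.count_replicate] at h1 h2
    norm_num at h1 h2
    rw [h1, h2]
  · intro p hp
    rw [mem_filter] at hp
    have hsub : p.parts = Multiset.replicate (p.parts.count 1) 1 +
        Multiset.replicate (p.parts.count 2) 2 + Multiset.replicate (p.parts.count 6) 6 := by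
      ext a
      rw [Multiset.count_add, Multiset.count_add, Multiset.count_replicate,
        Multiset.count_replicate, Multiset.count_replicate]
      by_cases ha : a ∈ p.parts
      · have := hp.2 a ha
        simp only [mem_insert, mem_singleton] at this
        rcases this with rfl | rfl | rfl <;> simp
      · have h0 := Multiset.count_eq_zero_of_notMem ha
        rw [h0]
        by_cases h1 : 1 = a
        · subst h1; simp [h0]
        · by_cases h2 : 2 = a
          · subst h2; simp [h0]
          · by_cases h6 : 6 = a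
            · subst h6; simp [h0]
            · simp [h1, h2, h6]
    have hsum : p.parts.count 1 + 2 * p.parts.count 2 + 6 * p.parts.count 6 = n := by
      have h3 := p.parts_sum
      have h4 := congrArg Multiset.sum hsub
      simp only [Multiset.sum_add, Multiset.sum_replicate, smul_eq_mul] at h4
      omega
    refine ⟨(p.parts.count 2, p.parts.count 6), ?_, ?_⟩
    · rw [mem_filter, mem_product, mem_range, mem_range]
      refine ⟨⟨?_, ?_⟩, ?_⟩ <;> simp only <;> omega
    · apply Nat.Partition.ext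
      simp only [mkP]
      conv_rhs => rw [hsub]
      rw [show n - 2 * p.parts.count 2 - 6 * p.parts.count 6 = p.parts.count 1 by omega]
  · rintro ⟨b, e⟩ hx
    rw [mem_filter] at hx
    have h := hx.2
    simp only at h
    have e1 : (mkP n b e h).parts.card = n - b - 5 * e := by
      simp only [mkP, Multiset.card_add, Multiset.card_replicate]
      omega
    simp only [e1]

theorem G_even (j : ℕ) (x : ℤ) :
    ∑ b ∈ range (2 * j + 1), (-1) ^ b * (x - b) ^ 2 = x ^ 2 - 2 * j * x + 2 * j ^ 2 + j := by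
  induction j with
  | zero => simp
  | succ j ih =>
    rw [show 2 * (j + 1) + 1 = (2 * j + 1) + 1 + 1 by ring, sum_range_succ, sum_range_succ, ih]
    have h1 : ((-1 : ℤ)) ^ (2 * j + 1) = -1 := by rw [pow_succ, pow_mul]; simp
    have h2 : ((-1 : ℤ)) ^ (2 * j + 1 + 1) = 1 := by rw [pow_succ, h1]; norm_num
    rw [h1, h2]
    push_cast
    ring

theorem G_odd (j : ℕ) (x : ℤ) :
    ∑ b ∈ range (2 * j + 2), (-1) ^ b * (x - b) ^ 2 = (j + 1) * (2 * x - 2 * j - 1) := by
  rw [show 2 * j + 2 = (2 * j + 1) + 1 by ring, sum_range_succ, G_even]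
  have h1 : ((-1 : ℤ)) ^ (2 * j + 1) = -1 := by rw [pow_succ, pow_mul]; simp
  rw [h1]
  push_cast
  ring

/-- the inner sum -/
def inner (y : ℤ) (e : ℕ) : ℤ :=
  (-1) ^ e * ∑ b ∈ range (3 * e + 2), (-1) ^ b * (y + 5 * e - b) ^ 2

theorem inner_even (y : ℤ) (f : ℕ) : inner y (2 * f) = (3 * f + 1) * (2 * y + 14 * f - 1) := by
  unfold inner
  rw [show 3 * (2 * f) + 2 = 2 * (3 * f) + 2 by ring, G_odd, pow_mul]
  push_cast
  ring

theorem inner_odd (y : ℤ) (f : ℕ) : inner y (2 * f + 1) =
    -((y + 10 * f + 5) ^ 2 - 2 * (3 * f + 2) * (y + 10 * f + 5) + 2 * (3 * f + 2) ^ 2 +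
      (3 * f + 2)) := by
  unfold inner
  rw [show 3 * (2 * f + 1) + 2 = 2 * (3 * f + 2) + 1 by ring, G_even, pow_succ, pow_mul]
  push_cast
  ring

theorem outer (y : ℤ) (m : ℕ) : 3 * ∑ e ∈ range (2 * m), inner y e =
    -8 * m * (m - 1) * (2 * m - 1) - 3 * (23 + 4 * y) * m * (m - 1) -
      3 * m * (16 + 4 * y + y ^ 2) := by
  induction m with
  | zero => simp
  | succ m ih =>
    rw [show 2 * (m + 1) = 2 * m + 1 + 1 by ring, sum_range_succ, sum_range_succ, mul_add, mul_add,
      ih, inner_even, inner_odd]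
    push_cast
    ring

theorem S_value (t : ℕ) : 3 * S (U 3) 2 (12 * t + 2) =
    -52 * (t : ℤ) ^ 3 + 69 * t ^ 2 + 82 * t + 9 := by
  have h1 : S (U 3) 2 (12 * t + 2) = ∑ e ∈ range (2 * t + 1), inner (2 * t + 2) e := by
    rw [S_three]
    unfold inner
    simp_rw [mul_sum]
    rw [Finset.sum_sigma']
    symm
    apply Finset.sum_bij (fun (x : (_ : ℕ) × ℕ) _ => (x.2, 2 * t - x.1))
    · rintro ⟨e, b⟩ hx
      simp only [mem_sigma, mem_range] at hx
      simp only [mem_filter, mem_product, mem_range]
      omega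
    · rintro ⟨e, b⟩ hx ⟨e', b'⟩ hx' h
      simp only [mem_sigma, mem_range] at hx hx'
      simp only [Prod.mk.injEq] at h
      have h3 : e = e' := by omega
      subst h3
      rw [h.1]
    · rintro ⟨b, e⟩ hx
      simp only [mem_filter, mem_product, mem_range] at hx
      refine ⟨⟨2 * t - e, b⟩, ?_, ?_⟩
      · simp only [mem_sigma, mem_range]
        omega
      · simp only [Prod.mk.injEq, true_and]
        omega
    · rintro ⟨e, b⟩ hx
      simp only [mem_sigma, mem_range] at hx
      simp only
      have e0 : 12 * t + 2 - b - 5 * (2 * t - e) = (2 * t + 2 + 5 * e) - b := by omega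
      have e3 : (((2 * t + 2 + 5 * e) - b : ℕ) : ℤ) = 2 * t + 2 + 5 * e - b := by
        rw [Nat.cast_sub (by omega)]
        push_cast
        ring
      rw [e0, e3]
      have e4 : ((-1 : ℤ)) ^ ((2 * t + 2 + 5 * e) - b) = (-1) ^ e * (-1) ^ b := by
        rw [← pow_add]
        apply neg_one_pow_congr
        rw [Nat.even_sub (by omega), Nat.even_add, Nat.even_add, Nat.even_add]
        have h2 : Even (2 * t) := even_two_mul t
        have h5 : Even (5 * e) ↔ Even e := by
          rw [Nat.even_mul]
          constructor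
          · rintro (h | h)
            · exact absurd h (by decide)
            · exact h
          · exact fun h => Or.inr h
        simp [h2, h5]
      rw [e4]
      ring
  rw [h1, sum_range_succ, mul_add, outer, inner_even]
  ring

/-- Part (ii) of Q1 fails for `m = 3`, `k = 2`: `(-1)^n S_{U_3, 2}(n) < 0` for infinitely many
`n`. -/
theorem result : ∀ N : ℕ, ∃ n : ℕ, N ≤ n ∧ (-1) ^ n * S (U 3) 2 n < 0 := by
  intro N
  refine ⟨12 * (N + 3) + 2, by omega, ?_⟩
  have h := S_value (N + 3)
  rw [show 12 * (N + 3) + 2 = 2 * (6 * (N + 3) + 1) by ring] at h ⊢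
  rw [pow_mul, neg_one_sq, one_pow, one_mul]
  push_cast at h
  have hN : (0 : ℤ) ≤ N := Int.natCast_nonneg N
  nlinarith [mul_nonneg hN hN, mul_nonneg (mul_nonneg hN hN) hN]

end Pool.Agent.Results.MP_e74e95_nt.PartTwoFails
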